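import Mathlib
import Pool.Agent.H361R2.GMain

/-!
The general Maynard-Tao theorem with an arbitrarily small loss: for every small `δ` at least
`x ^ (1 - δ / 2)` integers up to `x`. This is the proof of `Pool.Agent.H361R2.GM.final`
(starting library) with `δ` left free.
-/

namespace Pool.Agent.Y884.GR

open Finset Filter Topology Pool.Agent.H361R2.GM
open Pool.Agent.H410R2 hiding GP GP_prof GP_cut_some GP_cut_none GP_lip gg_pos gg_le_one gg_anti ee_bound ee_nonneg gg_lip LB_gg LB_ee Sums exists_sums yx wx wxi Br sum_GP_none sum_GP_some sum_GP_some_ee sum_GP_some_one sum_GPr_none sum_GPr_some S1_final QI_final S2_final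

open Classical in
/-- Maynard-Tao for `m` primes among `k` linear forms, with the loss `x ^ (δ / 2)` for all small
`δ` -/
def MTall (m k : ℕ) : Prop := ∀ (a b : Fin k → ℕ), (∀ i, 1 ≤ a i) → (∀ i, 1 ≤ b i) →
  (∀ i j, i ≠ j → a i * b j ≠ a j * b i) →
  (∀ p : ℕ, p.Prime → ∃ n : ℕ, ¬ p ∣ n ∧ ∀ i, ¬ p ∣ a i * n + b i) →
  ∃ δ₀ : ℝ, 0 < δ₀ ∧ ∀ δ : ℝ, 0 < δ → δ ≤ δ₀ → ∃ x₀ : ℝ, ∀ x : ℝ, x₀ ≤ x →
    x ^ (1 - δ / 2) ≤ (((Icc 1 ⌊x⌋₊).filter (fun n => (∀ p : ℕ, p.Prime → p ∣ n → x ^ δ < p) ∧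
      m ≤ (univ.filter (fun i => (a i * n + b i).Prime)).card)).card : ℝ)

theorem final_all (hT1 : S1Upper) (hT2 : S2Approx) (hT3 : S2Model) (hBV : BVAP) (hPNT : PNTLog)
    (hPB : ProdBound) (hOB : OmegaBound) (hOD : OneDim) (hTail : TailBound) (hAri : AriSetup)
    (hFA : FA) (hFB : FB) (hFC : FC) (Q : SPar) (k M : ℕ)
    (hnum : ∀ ε₁ : ℝ, 0 < ε₁ → ∃ ε : ℝ, 0 < ε ∧ ε < ε₁ ∧ ε < Q.I1 ∧ ε < Q.I2 ∧
      (M : ℝ) * ((1 + ε) ^ 2 * (1 / 3 + ε) * (Q.I2 + ε) ^ k) <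
        (1 - ε) ^ 3 * (Q.I1 - ε) ^ 2 * k * (24 / 100) * Br Q k ε) :
    MTall (M + 1) k := by
  classical
  intro a b ha hb hnp hadm
  obtain ⟨ε, hε, hε1, hI1, hI2, hmain⟩ := hnum (1 / 3) (by norm_num)
  have hI2p : 0 < Q.I2 := hε.trans hI2
  have h1ε : 0 < 1 - ε := by linarith
  have hI1ε : 0 < Q.I1 - ε := by linarith
  have hk0 : (0 : ℝ) ≤ k := Nat.cast_nonneg k
  have hM0 : (0 : ℝ) ≤ M := Nat.cast_nonneg M
  have hBr : 0 < Br Q k ε := by
    have h0 : 0 ≤ (M : ℝ) * ((1 + ε) ^ 2 * (1 / 3 + ε) * (Q.I2 + ε) ^ k) := by positivity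
    have h1 : 0 < (1 - ε) ^ 3 * (Q.I1 - ε) ^ 2 * k * (24 / 100) * Br Q k ε := lt_of_le_of_lt h0 hmain
    have h2 : 0 ≤ (1 - ε) ^ 3 * (Q.I1 - ε) ^ 2 * k * (24 / 100) := by positivity
    by_contra hcon
    have h3 : Br Q k ε ≤ 0 := not_lt.1 hcon
    have h4 := mul_nonpos_of_nonneg_of_nonpos h2 h3
    linarith
  set A : ℝ := (1 / 3 + ε) * (Q.I2 + ε) ^ k with hA
  have hA0 : 0 < A := by positivity
  set β : ℝ := (1 - ε) ^ 3 * (Q.I1 - ε) ^ 2 * Br Q k ε with hβ
  set B : ℝ := 24 / 100 * (k * β) with hB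
  set γ : ℝ := B - M * ((1 + ε) ^ 2 * A) with hγ
  have hγ0 : 0 < γ := by
    rw [hγ, hB, hβ, hA, sub_pos]
    calc (M : ℝ) * ((1 + ε) ^ 2 * ((1 / 3 + ε) * (Q.I2 + ε) ^ k)) =
          (M : ℝ) * ((1 + ε) ^ 2 * (1 / 3 + ε) * (Q.I2 + ε) ^ k) := by ring
      _ < _ := hmain
      _ = _ := by ring
  have hMA : M * A ≤ B - γ := by
    have h1 : (M : ℝ) * A ≤ M * ((1 + ε) ^ 2 * A) := by
      apply mul_le_mul_of_nonneg_left _ hM0
      have h2 : 1 ≤ (1 + ε) ^ 2 := one_le_pow₀ (by linarith)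
      exact le_mul_of_one_le_left hA0.le h2
    rw [hγ]; linarith
  set F : ℝ := (1 + ε) * (Q.I2 + ε) ^ k with hF
  have hF0 : 0 < F := by positivity
  set η : ℝ := γ / (8 * (k * F + 1)) with hη
  have hη0 : 0 < η := by positivity
  have hηk : k * (η * F) ≤ γ / 8 := by
    have e : η * (8 * (k * F + 1)) = γ := by rw [hη]; field_simp
    have h1 : 0 ≤ η := hη0.le
    nlinarith
  obtain ⟨D1, δ₀, hδ₀, hFB⟩ := hFB Q k η hη0
  obtain ⟨D2, hctx⟩ := exists_ctx hAri a b ha hb hnp hadm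
  obtain ⟨D3, hκ⟩ := hκ_of hTail k ε hε
  obtain ⟨D4, hov⟩ := hovl_of hTail k ε hε
  obtain ⟨D5, hsum⟩ := sums_ev Q hOD (k + 1) ε hε
  set D := D1 + D2 + D3 + D4 + D5 with hD
  obtain ⟨v, hc⟩ := hctx D (by omega)
  have hκ := hκ D (by omega)
  have hov := hov D (by omega)
  have hsum := hsum D (by omega)
  refine ⟨min δ₀ (1 / 2), lt_min hδ₀ (by norm_num), ?_⟩
  intro δ hδ0 hδm
  have hδle : δ ≤ δ₀ := hδm.trans (min_le_left _ _)
  have hδ1 : δ < 1 := lt_of_le_of_lt (hδm.trans (min_le_right _ _)) (by norm_num)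
  rw [← Filter.eventually_atTop]
  obtain ⟨C, hC0, hFC⟩ := hFC Q k a b D v hc
  have hFB := hFB a b D v (by omega) hc ε hε hI2p δ hδ0 hδle hsum
  have hFA := hFA Q k a b D v hc (δ / 8) (by positivity)
  have hS2 := S2_final Q hT2 hT3 hBV hPNT hPB hOB hc ε hε hε1 hI1 hI2 hBr hκ hov hsum
  set c₁ : ℝ := M * A + γ / 8 with hc₁
  have hc₁0 : 0 < c₁ := by positivity
  filter_upwards [hFB, hFA, hS2, hFC, hsum, E0_le hPB k D,
    Real.tendsto_log_atTop.eventually_ge_atTop (C * c₁ / (γ / 8)),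
    Real.tendsto_log_atTop.eventually_ge_atTop C,
    Real.tendsto_log_atTop.eventually_ge_atTop 1,
    Q0_large k D hc.hW hc.BDpos ((2 * k + 1) / (γ / 4)),
    Q0_large k D hc.hW hc.BDpos (1 / (γ / 2)),
    ev_polylog (2 * (M + k)) 1 (3 / 4) 1 (by norm_num),
    ev_polylog (2 * k) 2 (δ / 8) (δ / 2) (by linarith), eventually_gt_atTop (1 : ℝ)]
    with x hFB hFA hS2 hFC hsum hE0 hl1 hl2 hl3 hq1 hq2 hp1 hp2 hx
  have hx0 : 0 < x := by linarith
  have hlx : 0 < Real.log x := Real.log_pos hx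
  have hS1 := S1_final Q hT1 hc ε hε hI2p x hx hsum
  set u : ℕ → ℝ := fun n => Real.log (x / n) * (wx Q a b D x n) ^ 2 with hu
  set N := (Icc 1 ⌊x⌋₊).filter (fun n => n ≡ v [MOD (WW D)]) with hN
  have hNm : ∀ n ∈ Icc 1 ⌊x⌋₊, 1 ≤ n ∧ (n : ℝ) ≤ x := by
    intro n hn
    rw [Finset.mem_Icc] at hn
    exact ⟨hn.1, (Nat.cast_le.2 hn.2).trans (Nat.floor_le hx0.le)⟩
  have hlogn : ∀ n ∈ Icc 1 ⌊x⌋₊, 0 ≤ Real.log (x / n) ∧ Real.log (x / n) ≤ Real.log x := by
    intro n hn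
    obtain ⟨h1, h2⟩ := hNm n hn
    have hn1 : (1 : ℝ) ≤ n := by exact_mod_cast h1
    have hn0 : (0 : ℝ) < n := by linarith
    constructor
    · apply Real.log_nonneg
      rw [le_div_iff₀ hn0]
      linarith
    · apply Real.log_le_log (by positivity)
      exact div_le_self hx0.le hn1
  have hu0 : ∀ n ∈ Icc 1 ⌊x⌋₊, 0 ≤ u n := fun n hn => mul_nonneg (hlogn n hn).1 (sq_nonneg _)
  have hu1 : ∀ n ∈ Icc 1 ⌊x⌋₊, u n ≤ Real.log x * x ^ (δ / 8) := by
    intro n hn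
    obtain ⟨h1, h2⟩ := hNm n hn
    have h3 := (hFA n h1 h2).1
    have h4 := hlogn n hn
    simp only [hu]
    apply mul_le_mul h4.2 h3 (sq_nonneg _) hlx.le
  set ρ : ℕ → ℕ := fun n => (univ.filter (fun i => (a i * n + b i).Prime)).card with hρ
  have hρk : ∀ n, ρ n ≤ k := by
    intro n
    simp only [hρ]
    calc (univ.filter (fun i => (a i * n + b i).Prime)).card ≤ (univ : Finset (Fin k)).card :=
          Finset.card_filter_le _ _
      _ = k := by simp
  set Gd := (Icc 1 ⌊x⌋₊).filter (fun n => (∀ p : ℕ, p.Prime → p ∣ n → x ^ δ < p) ∧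
      M + 1 ≤ (univ.filter (fun i => (a i * n + b i).Prime)).card) with hGd
  -- the sum over `i`
  have hT : ∑ i : Fin k, ∑ n ∈ (Icc 1 ⌊x⌋₊).filter
      (fun n => n ≡ v [MOD (WW D)] ∧ (a i * n + b i).Prime), u n ≤
      M * (∑ n ∈ N, u n) + k * (∑ n ∈ (Icc 1 ⌊x⌋₊).filter (fun n => n ≡ v [MOD (WW D)] ∧
          ∃ p : ℕ, p.Prime ∧ p ∣ n ∧ (p : ℝ) ≤ x ^ δ), u n) + k * ∑ n ∈ Gd, u n := by
    have e1 : ∑ i : Fin k, ∑ n ∈ (Icc 1 ⌊x⌋₊).filter
      (fun n => n ≡ v [MOD (WW D)] ∧ (a i * n + b i).Prime), u n =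
      ∑ n ∈ Icc 1 ⌊x⌋₊, (if n ≡ v [MOD (WW D)] then (ρ n : ℝ) * u n else 0) := by
      simp_rw [Finset.sum_filter]
      rw [Finset.sum_comm]
      refine Finset.sum_congr rfl fun n _ => ?_
      split_ifs with h
      · simp only [h, true_and]
        rw [← Finset.sum_filter, Finset.sum_const, nsmul_eq_mul]
      · simp [h]
    rw [e1, hN, hGd]
    simp only [Finset.sum_filter]
    rw [Finset.mul_sum, Finset.mul_sum, Finset.mul_sum, ← Finset.sum_add_distrib,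
      ← Finset.sum_add_distrib]
    apply Finset.sum_le_sum
    intro n hn
    have hun := hu0 n hn
    have hρn : (ρ n : ℝ) ≤ k := by exact_mod_cast hρk n
    by_cases h1 : n ≡ v [MOD (WW D)]
    · simp only [h1, if_true, true_and]
      by_cases h2 : ∃ p : ℕ, p.Prime ∧ p ∣ n ∧ (p : ℝ) ≤ x ^ δ
      · rw [if_pos h2]
        have h3 : 0 ≤ (k : ℝ) * (if (∀ p : ℕ, p.Prime → p ∣ n → x ^ δ < p) ∧
          M + 1 ≤ (univ.filter (fun i => (a i * n + b i).Prime)).card then u n else 0) := by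
          split_ifs <;> positivity
        have h4 : (ρ n : ℝ) * u n ≤ k * u n := mul_le_mul_of_nonneg_right hρn hun
        have h5 : 0 ≤ (M : ℝ) * u n := mul_nonneg hM0 hun
        linarith
      · rw [if_neg h2]
        push Not at h2
        have h2' : ∀ p : ℕ, p.Prime → p ∣ n → x ^ δ < p := h2
        by_cases h6 : M + 1 ≤ (univ.filter (fun i => (a i * n + b i).Prime)).card
        · rw [if_pos ⟨h2', h6⟩]
          have h4 : (ρ n : ℝ) * u n ≤ k * u n := mul_le_mul_of_nonneg_right hρn hun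
          have h5 : 0 ≤ (M : ℝ) * u n := mul_nonneg hM0 hun
          linarith
        · have h7 : ρ n ≤ M := by
            have : ρ n < M + 1 := not_le.1 h6
            omega
          have h8 : (ρ n : ℝ) ≤ M := by exact_mod_cast h7
          have h4 : (ρ n : ℝ) * u n ≤ M * u n := mul_le_mul_of_nonneg_right h8 hun
          rw [if_neg (fun h => h6 h.2)]
          linarith
    · simp only [h1, if_false, false_and]
      have h3 : 0 ≤ (k : ℝ) * (if (∀ p : ℕ, p.Prime → p ∣ n → x ^ δ < p) ∧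
          M + 1 ≤ (univ.filter (fun i => (a i * n + b i).Prime)).card then u n else 0) := by
          split_ifs <;> positivity
      linarith
  have hGs : ∑ n ∈ Gd, u n ≤ Gd.card * (Real.log x * x ^ (δ / 8)) := by
    rw [← nsmul_eq_mul]
    apply Finset.sum_le_card_nsmul
    intro n hn
    rw [hGd, Finset.mem_filter] at hn
    exact hu1 n hn.1
  -- combine
  have hsumS2 : k * (Lx x * Q0 k D x * β - x) ≤ (Real.log x + C) *
      ∑ i : Fin k, ∑ n ∈ (Icc 1 ⌊x⌋₊).filter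
      (fun n => n ≡ v [MOD (WW D)] ∧ (a i * n + b i).Prime), u n + k * x ^ (3 / 4 : ℝ) := by
    have h1 : ∀ i : Fin k, Lx x * Q0 k D x * β - x ≤ (Real.log x + C) *
      ∑ n ∈ (Icc 1 ⌊x⌋₊).filter
      (fun n => n ≡ v [MOD (WW D)] ∧ (a i * n + b i).Prime), u n + x ^ (3 / 4 : ℝ) := by
      intro i
      exact (hS2 i).trans (hFC i)
    have h2 := Finset.sum_le_sum fun (i : Fin k) (_ : i ∈ univ) => h1 i
    rw [Finset.sum_add_distrib, ← Finset.mul_sum] at h2
    simp only [Finset.sum_const, Finset.card_univ, Fintype.card_fin, nsmul_eq_mul] at h2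
    exact h2
  set T := ∑ i : Fin k, ∑ n ∈ (Icc 1 ⌊x⌋₊).filter
      (fun n => n ≡ v [MOD (WW D)] ∧ (a i * n + b i).Prime), u n with hTd
  set NR := ∑ n ∈ (Icc 1 ⌊x⌋₊).filter (fun n => n ≡ v [MOD (WW D)] ∧
          ∃ p : ℕ, p.Prime ∧ p ∣ n ∧ (p : ℝ) ≤ x ^ δ), u n with hNRd
  set Z := Q0 k D x with hZ
  set y := x ^ (3 / 4 : ℝ) with hy
  have hy0 : 0 ≤ y := by positivity
  have hyx : y ≤ x := by
    rw [hy]
    calc x ^ (3 / 4 : ℝ) ≤ x ^ (1 : ℝ) := Real.rpow_le_rpow_of_exponent_le hx.le (by norm_num)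
      _ = x := Real.rpow_one x
  have hyE : E0 k D x ≤ y :=
    hE0.trans (Real.rpow_le_rpow_of_exponent_le hx.le (by norm_num))
  have hZ0 : 0 ≤ Z := by
    have h1 : 0 ≤ 1 / (γ / 2) * x := by positivity
    exact h1.trans hq2
  have hcd : (0 : ℝ) ≤ Gd.card := Nat.cast_nonneg _
  have hTle : T ≤ Z * c₁ + (M + k) * y + k * (Gd.card * (Real.log x * x ^ (δ / 8))) := by
    have h1 : (M : ℝ) * ∑ n ∈ N, u n ≤ M * (Z * A + y) := by
      apply mul_le_mul_of_nonneg_left _ hM0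
      have : ∑ n ∈ N, u n ≤ Z * A + E0 k D x := hS1
      linarith
    have h2 : (k : ℝ) * NR ≤ k * (η * Z * F + y) := mul_le_mul_of_nonneg_left hFB hk0
    have h3 : (k : ℝ) * ∑ n ∈ Gd, u n ≤ k * (Gd.card * (Real.log x * x ^ (δ / 8))) :=
      mul_le_mul_of_nonneg_left hGs hk0
    have h4 : Z * (k * (η * F)) ≤ Z * (γ / 8) := mul_le_mul_of_nonneg_left hηk hZ0
    have e : (M : ℝ) * (Z * A + y) + k * (η * Z * F + y) =
        Z * (M * A) + Z * (k * (η * F)) + (M + k) * y := by ring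
    rw [hc₁]
    linarith
  have hC1 : C * c₁ ≤ Real.log x * (γ / 8) := by
    rw [div_le_iff₀ (by positivity)] at hl1
    exact hl1
  have h5 : (Real.log x + C) * T ≤ Real.log x * Z * (M * A + γ / 4) + x +
      Gd.card * x ^ (δ / 2) := by
    have h6 : (Real.log x + C) * (Z * c₁) ≤ Real.log x * Z * (M * A + γ / 4) := by
      calc (Real.log x + C) * (Z * c₁) = Z * (Real.log x * c₁ + C * c₁) := by ring
        _ ≤ Z * (Real.log x * c₁ + Real.log x * (γ / 8)) := by gcongr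
        _ = _ := by rw [hc₁]; ring
    have h7 : (Real.log x + C) * ((M + k) * y) ≤ x := by
      calc (Real.log x + C) * ((M + k) * y) ≤ (2 * Real.log x) * ((M + k) * y) := by
            gcongr
            linarith
        _ = 2 * (M + k) * (Real.log x) ^ 1 * y := by ring
        _ ≤ x ^ (1 : ℝ) := hp1
        _ = x := Real.rpow_one x
    have h8 : (Real.log x + C) * (k * (Gd.card * (Real.log x * x ^ (δ / 8)))) ≤
        Gd.card * x ^ (δ / 2) := by
      calc (Real.log x + C) * (k * (Gd.card * (Real.log x * x ^ (δ / 8)))) ≤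
            (2 * Real.log x) * (k * (Gd.card * (Real.log x * x ^ (δ / 8)))) := by
            gcongr
            linarith
        _ = Gd.card * (2 * k * (Real.log x) ^ 2 * x ^ (δ / 8)) := by ring
        _ ≤ _ := by gcongr
    have h9 : 0 ≤ Real.log x + C := by linarith
    calc (Real.log x + C) * T ≤ (Real.log x + C) *
          (Z * c₁ + (M + k) * y + k * (Gd.card * (Real.log x * x ^ (δ / 8)))) := by gcongr
      _ = (Real.log x + C) * (Z * c₁) + (Real.log x + C) * ((M + k) * y) +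
          (Real.log x + C) * (k * (Gd.card * (Real.log x * x ^ (δ / 8)))) := by ring
      _ ≤ _ := by linarith
  have h10 : k * (Lx x * Z * β) = Real.log x * Z * B := by
    rw [hB]
    unfold Lx
    ring
  have h11 : Real.log x * Z * (M * A + γ / 4) ≤ Real.log x * Z * (B - 3 * γ / 4) := by
    have : 0 ≤ Real.log x * Z := by positivity
    apply mul_le_mul_of_nonneg_left _ this
    linarith
  have h12 : Z ≤ Real.log x * Z := le_mul_of_one_le_left hZ0 hl3
  have h13 : (2 * k + 1) * x ≤ γ / 4 * (Real.log x * Z) := by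
    have h14 : (2 * k + 1) * x ≤ γ / 4 * Z := by
      have := mul_le_mul_of_nonneg_left hq1 (by positivity : 0 ≤ γ / 4)
      calc (2 * k + 1) * x = γ / 4 * ((2 * k + 1) / (γ / 4) * x) := by field_simp
        _ ≤ _ := this
    have := mul_le_mul_of_nonneg_left h12 (by positivity : 0 ≤ γ / 4)
    linarith
  have h15 : x ≤ γ / 2 * (Real.log x * Z) := by
    have h14 : x ≤ γ / 2 * Z := by
      have := mul_le_mul_of_nonneg_left hq2 (by positivity : 0 ≤ γ / 2)
      calc x = γ / 2 * (1 / (γ / 2) * x) := by field_simp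
        _ ≤ _ := this
    have := mul_le_mul_of_nonneg_left h12 (by positivity : 0 ≤ γ / 2)
    linarith
  have h16 : k * y ≤ k * x := mul_le_mul_of_nonneg_left hyx hk0
  have h17 : x ≤ Gd.card * x ^ (δ / 2) := by
    have e1 : k * (Lx x * Z * β - x) = k * (Lx x * Z * β) - k * x := by ring
    rw [e1, h10] at hsumS2
    have e2 : Real.log x * Z * (B - 3 * γ / 4) = Real.log x * Z * B -
      3 * (γ / 4 * (Real.log x * Z)) := by ring
    have e3 : γ / 2 * (Real.log x * Z) = 2 * (γ / 4 * (Real.log x * Z)) := by ring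
    linarith
  have hxd : 0 < x ^ (δ / 2) := by positivity
  calc x ^ (1 - δ / 2) = x / x ^ (δ / 2) := by
        rw [Real.rpow_sub hx0, Real.rpow_one]
    _ ≤ Gd.card := by
        rw [div_le_iff₀ hxd]
        exact h17

/-- Maynard-Tao theorem: for every `M` there is `k` such that `M + 1` of any `k` suitable linear
forms are simultaneously prime, for at least `x ^ (1 - δ / 2)` values up to `x`. -/
theorem maynardTaoAll (M : ℕ) (hM : 1 ≤ M) : ∃ k : ℕ, 2 ≤ k ∧ MTall (M + 1) k := by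
  obtain ⟨k, Q, hk, h⟩ := num_gen M hM
  exact ⟨k, hk, final_all Pool.Agent.H361R2.s1Upper Pool.Agent.H732R2.s2Approx
    Pool.Agent.H361R2.s2Model bvap
    Pool.Agent.H732R2.pntLog Pool.Agent.H361R2.prodBound Pool.Agent.H361R2.omegaBound
    Pool.Agent.H399R2.oneDim Pool.Agent.H361R2.tailBound Pool.Agent.H398R2.ariSetup
    fa fb (fc fa) Q k M h⟩

end Pool.Agent.Y884.GR
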