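import Mathlib

/-! The primes `p_j`, the shifts `x_j` and the residue class. -/

set_option autoImplicit false

namespace Pool.Agent.Y884.GR

/-- the growing chain of primes -/
structure Sq (B : ℕ) (x p : ℕ → ℕ) : Prop where
  x0 : x 0 = 0
  prime : ∀ j, (p j).Prime
  succ : ∀ j, x (j + 1) + 1 = x j + p j
  grow : ∀ j, 3 * x j + 2 < p j
  big : ∀ j, B < p j
  cong : ∀ j l, l < j → p j ≡ 1 [MOD p l]
  congB : ∀ j, p j ≡ 1 [MOD B.factorial]
  lt : ∀ j l, l < j → p l < p j

theorem exists_sq (B : ℕ) : ∃ x p : ℕ → ℕ, Sq B x p := by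
  have hex : ∀ s : ℕ × ℕ, ∃ p : ℕ, p.Prime ∧ 3 * s.2 + 2 + s.1 + B < p ∧
      (s.1 ≠ 0 → p ≡ 1 [MOD s.1]) := by
    intro s
    by_cases h : s.1 = 0
    · obtain ⟨p, hp1, hp2⟩ := Nat.exists_infinite_primes (3 * s.2 + 2 + s.1 + B + 1)
      exact ⟨p, hp2, by omega, fun h' => absurd h h'⟩
    · obtain ⟨p, hp1, hp2, hp3⟩ := Nat.exists_prime_gt_modEq_one (k := s.1)
        (3 * s.2 + 2 + s.1 + B) h
      exact ⟨p, hp1, hp2, fun _ => hp3⟩
  choose F hF1 hF2 hF3 using hex
  set st : ℕ → ℕ × ℕ := fun n => Nat.rec (B.factorial, 0)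
    (fun _ s => (s.1 * F s, s.2 + F s - 1)) n with hst
  have hst0 : st 0 = (B.factorial, 0) := rfl
  have hsts : ∀ n, st (n + 1) = ((st n).1 * F (st n), (st n).2 + F (st n) - 1) := fun n => rfl
  have hne : ∀ n, (st n).1 ≠ 0 := by
    intro n
    induction n with
    | zero => rw [hst0]; exact (Nat.factorial_pos B).ne'
    | succ n ih =>
      rw [hsts]
      exact mul_ne_zero ih (hF1 _).ne_zero
  have hdvd : ∀ n m, m ≤ n → (st m).1 ∣ (st n).1 := by
    intro n m hmn
    induction n, hmn using Nat.le_induction with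
    | base => exact dvd_rfl
    | succ n hn ih =>
      rw [hsts]
      exact ih.trans (dvd_mul_right _ _)
  have hpd : ∀ l j, l < j → F (st l) ∣ (st j).1 := by
    intro l j hlj
    have h1 := hdvd j (l + 1) hlj
    rw [hsts] at h1
    exact (dvd_mul_left _ _).trans h1
  refine ⟨fun j => (st j).2, fun j => F (st j), ?_, ?_, ?_, ?_, ?_, ?_, ?_, ?_⟩
  · simp only [hst0]
  · intro j; exact hF1 _
  · intro j
    simp only [hsts]
    have := (hF1 (st j)).one_lt
    omega
  · intro j
    have := hF2 (st j)
    show 3 * (st j).2 + 2 < F (st j)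
    omega
  · intro j
    have := hF2 (st j)
    show B < F (st j)
    omega
  · intro j l hlj
    exact (hF3 (st j) (hne j)).of_dvd (hpd l j hlj)
  · intro j
    refine (hF3 (st j) (hne j)).of_dvd ?_
    have := hdvd j 0 (Nat.zero_le _)
    rwa [hst0] at this
  · intro j l hlj
    have h1 := hF2 (st j)
    have h2 := Nat.le_of_dvd (Nat.pos_of_ne_zero (hne j)) (hpd l j hlj)
    show F (st l) < F (st j)
    omega

namespace Sq

variable {B : ℕ} {x p : ℕ → ℕ}

lemma mono (h : Sq B x p) {i j : ℕ} (hij : i ≤ j) : x i ≤ x j := by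
  induction j, hij using Nat.le_induction with
  | base => exact le_rfl
  | succ j hj ih =>
    have h1 := h.succ j
    have h2 := (h.prime j).one_lt
    omega

lemma strict (h : Sq B x p) {i j : ℕ} (hij : i < j) : x i < x j := by
  have h1 := h.mono (show i + 1 ≤ j from hij)
  have h2 := h.succ i
  have h3 := (h.prime i).one_lt
  omega

lemma inj (h : Sq B x p) {i j : ℕ} (hij : x i = x j) : i = j := by
  rcases lt_trichotomy i j with h1 | h1 | h1
  · exact absurd hij (h.strict h1).ne
  · exact h1
  · exact absurd hij (h.strict h1).ne'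

lemma pinj (h : Sq B x p) {i j : ℕ} (hij : p i = p j) : i = j := by
  rcases lt_trichotomy i j with h1 | h1 | h1
  · exact absurd hij (h.lt _ _ h1).ne
  · exact h1
  · exact absurd hij (h.lt _ _ h1).ne'

lemma dvd_sub (h : Sq B x p) {l j : ℕ} (hlj : l + 1 ≤ j) : (p l : ℤ) ∣ (x j : ℤ) - x (l + 1) := by
  induction j, hlj using Nat.le_induction with
  | base => simp
  | succ j hj ih =>
    have h1 := h.succ j
    have h2 : (p l : ℤ) ∣ (p j : ℤ) - 1 := by
      have := (Nat.modEq_iff_dvd.mp (h.cong j l (by omega)).symm)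
      exact_mod_cast this
    have h3 : ((x (j + 1) : ℕ) : ℤ) + 1 = x j + p j := by exact_mod_cast h1
    have e : ((x (j + 1) : ℕ) : ℤ) - x (l + 1) = ((x j : ℤ) - x (l + 1)) + ((p j : ℤ) - 1) := by
      linarith
    rw [e]
    exact dvd_add ih h2

lemma dvdB (h : Sq B x p) {q : ℕ} (hq : q ∣ B.factorial) (j : ℕ) : (q : ℤ) ∣ (x j : ℤ) := by
  induction j with
  | zero => rw [h.x0]; simp
  | succ j ih =>
    have h1 := h.succ j
    have h2 : (q : ℤ) ∣ (p j : ℤ) - 1 := by
      have := (Nat.modEq_iff_dvd.mp ((h.congB j).of_dvd hq).symm)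
      exact_mod_cast this
    have h3 : ((x (j + 1) : ℕ) : ℤ) + 1 = x j + p j := by exact_mod_cast h1
    have e : ((x (j + 1) : ℕ) : ℤ) = (x j : ℤ) + ((p j : ℤ) - 1) := by
      linarith
    rw [e]
    exact dvd_add ih h2

/-- the residue class modulo a prime `q` -/
theorem residue (h : Sq B x p) (k : ℕ) (hB : k ^ 3 ≤ B) {q : ℕ} (hq : q.Prime) :
    ∃ ρ : ℤ, (∀ l, l < k → q = p l → (q : ℤ) ∣ ρ + x l + x (l + 1)) ∧
      ∀ i m j, i ≤ m → m ≤ j → j < k → (q < p m ∨ m = j) →
        ¬ (q : ℤ) ∣ ρ + 2 * x i + x j - x m := by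
  have hq1 : (1 : ℤ) < q := by exact_mod_cast hq.one_lt
  have hnot1 : ¬ (q : ℤ) ∣ 1 := by
    intro h1
    have := Int.le_of_dvd one_pos h1
    omega
  rcases Nat.lt_or_ge B q with hqB | hqB
  · by_cases hl : ∃ l, l < k ∧ q = p l
    · obtain ⟨l, hlk, rfl⟩ := hl
      refine ⟨-(x l + x (l + 1)), ?_, ?_⟩
      · intro l' _ hl'
        have := h.pinj hl'
        subst this
        have e : -((x l : ℤ) + x (l + 1)) + x l + x (l + 1) = 0 := by ring
        rw [e]
        exact dvd_zero _
      · intro i m j him hmj hjk hor hd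
        -- reduce to `x j - x m = 0`
        have hs : ((x (l + 1) : ℕ) : ℤ) + 1 = x l + p l := by exact_mod_cast h.succ l
        have h1 : (p l : ℤ) ∣ (x j : ℤ) - x m := by
          rcases hor with hor | hor
          · have hlm : l + 1 ≤ m := by
              by_contra hcon
              have h2 : m ≤ l := by omega
              rcases h2.lt_or_eq with h3 | h3
              · have := h.lt _ _ h3
                omega
              · subst h3
                omega
            have h3 := _root_.dvd_sub (h.dvd_sub (hlm.trans hmj)) (h.dvd_sub hlm)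
            have e : ((x j : ℤ) - x (l + 1)) - (x m - x (l + 1)) = x j - x m := by ring
            rwa [e] at h3
          · subst hor
            simp
        have h2 : (p l : ℤ) ∣ -((x l : ℤ) + x (l + 1)) + 2 * x i := by
          have h3 := _root_.dvd_sub hd h1
          have e : (-((x l : ℤ) + x (l + 1)) + 2 * x i + x j - x m) - (x j - x m) =
            -((x l : ℤ) + x (l + 1)) + 2 * x i := by ring
          rwa [e] at h3
        rcases Nat.lt_or_ge l i with hli | hli
        · have h3 := h.dvd_sub (show l + 1 ≤ i from hli)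
          have h4 : (p l : ℤ) ∣ (x (l + 1) : ℤ) - x l := by
            have h5 := _root_.dvd_sub h2 (h3.mul_left 2)
            have e : (-((x l : ℤ) + x (l + 1)) + 2 * x i) - 2 * (x i - x (l + 1)) =
              x (l + 1) - x l := by ring
            rwa [e] at h5
          have e : (x (l + 1) : ℤ) - x l = p l - 1 := by linarith
          rw [e] at h4
          have h6 := _root_.dvd_sub (dvd_refl (p l : ℤ)) h4
          have e2 : (p l : ℤ) - (p l - 1) = 1 := by ring
          rw [e2] at h6
          exact hnot1 h6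
        · have hxi := h.mono hli
          have h3 : (p l : ℤ) ∣ 2 * ((x l : ℤ) - x i) - 1 := by
            have h5 := dvd_add h2 (dvd_refl (p l : ℤ))
            have e : (-((x l : ℤ) + x (l + 1)) + 2 * x i) + p l =
              -(2 * ((x l : ℤ) - x i) - 1) := by linarith
            rw [e] at h5
            exact (dvd_neg).mp h5
          have hgr := h.grow l
          have hxz : (x i : ℤ) ≤ x l := by exact_mod_cast hxi
          rcases hxi.lt_or_eq with h4 | h4
          · have h5 := Int.le_of_dvd (by omega) h3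
            omega
          · rw [h4] at h3
            have e : 2 * ((x l : ℤ) - x l) - 1 = -1 := by ring
            rw [e] at h3
            exact hnot1 ((dvd_neg).mp h3)
    · push Not at hl
      -- avoid the images
      set Im : Finset (ZMod q) := (Finset.univ : Finset (Fin k × Fin k × Fin k)).image
        (fun t => -(((2 * x t.1 + x t.2.2 : ℕ) : ZMod q) - ((x t.2.1 : ℕ) : ZMod q))) with hIm
      have : NeZero q := ⟨hq.ne_zero⟩
      have hcard : Im.card < (Finset.univ : Finset (ZMod q)).card := by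
        rw [Finset.card_univ, ZMod.card]
        refine lt_of_le_of_lt (Finset.card_image_le) ?_
        rw [Finset.card_univ, Fintype.card_prod, Fintype.card_prod, Fintype.card_fin]
        have : k * (k * k) = k ^ 3 := by ring
        omega
      obtain ⟨z, _, hz⟩ := Finset.exists_mem_notMem_of_card_lt_card hcard
      refine ⟨(z.val : ℤ), fun l hlk hql => absurd hql (hl l hlk), ?_⟩
      intro i m j him hmj hjk _ hd
      apply hz
      rw [hIm, Finset.mem_image]
      refine ⟨(⟨i, by omega⟩, ⟨m, by omega⟩, ⟨j, hjk⟩), Finset.mem_univ _, ?_⟩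
      have h1 := (ZMod.intCast_zmod_eq_zero_iff_dvd _ q).mpr hd
      push_cast at h1
      rw [ZMod.natCast_zmod_val] at h1
      push_cast
      linear_combination (-1 : ZMod q) * h1
  · refine ⟨1, ?_, ?_⟩
    · intro l _ hql
      have := h.big l
      omega
    · intro i m j _ _ _ _ hd
      have hqf : q ∣ B.factorial := (hq.dvd_factorial).mpr hqB
      have h1 := h.dvdB hqf
      have h2 : (q : ℤ) ∣ 1 := by
        have h3 := _root_.dvd_sub hd (_root_.dvd_sub (dvd_add ((h1 i).mul_left 2) (h1 j)) (h1 m))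
        have e : (1 + 2 * (x i : ℤ) + x j - x m) - (2 * x i + x j - x m) = 1 := by ring
        rwa [e] at h3
      exact hnot1 h2

end Sq

end Pool.Agent.Y884.GR
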