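import Mathlib

/-!
# The gcd recursion `a_n = a_{n-1} - gcd(a_{n-1}, N - (-1)^n (N - n))`: controlled walks

With `c = a_{n-1} + n` the recursion is a walk `c`, starting at `N`, that drops by `gcd - 1`.
If a chain of odd primes `p_i < ... < p_{j-1}` divides the right numbers and nothing smaller does,
the nontrivial gcds are exactly these primes and the walk ends in the pair `(n + 2 x_i, n + 2 x_j)`.
-/

set_option autoImplicit false

namespace Pool.Agent.Y884.GR

/-- the second argument of the gcd -/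
def V (N : ℕ) (n : ℕ) : ℤ := (N : ℤ) - (-1 : ℤ) ^ n * ((N : ℤ) - (n : ℤ))

lemma V_even (N : ℕ) {n : ℕ} (hn : n % 2 = 0) : V N n = n := by
  have : Even n := Nat.even_iff.mpr hn
  simp only [V]; rw [this.neg_one_pow]; ring

lemma V_odd (N : ℕ) {n : ℕ} (hn : n % 2 = 1) : V N n = 2 * N - n := by
  have : Odd n := Nat.odd_iff.mpr hn
  simp only [V]; rw [this.neg_one_pow]; ring

/-- the recursion -/
structure Walk (N : ℕ) (a : ℕ → ℤ) : Prop where
  start : a 1 = (N : ℤ) - 2
  step : ∀ n : ℕ, 2 ≤ n → a n = a (n - 1) - ((Int.gcd (a (n - 1)) (V N n) : ℕ) : ℤ)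

lemma gcd_even {c : ℤ} {n : ℕ} {P : ℕ} (h : ∀ q : ℕ, q.Prime → q < P → ¬ (q : ℤ) ∣ c)
    (hn0 : 0 < n) (hn : n < P) : Int.gcd (c - n) n = 1 := by
  by_contra hg
  obtain ⟨q, hq, hqd⟩ := Nat.exists_prime_and_dvd hg
  have h1 : (q : ℤ) ∣ c - n := (Int.natCast_dvd_natCast.mpr hqd).trans (Int.gcd_dvd_left _ _)
  have h2 : (q : ℤ) ∣ (n : ℤ) := (Int.natCast_dvd_natCast.mpr hqd).trans (Int.gcd_dvd_right _ _)
  have h3 : q ≤ n := Nat.le_of_dvd hn0 (Int.natCast_dvd_natCast.mp h2)
  apply h q hq (by omega)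
  have := dvd_add h1 h2
  simpa using this

lemma gcd_odd {N : ℕ} {c : ℤ} {n : ℕ} {P : ℕ}
    (h : ∀ q : ℕ, q.Prime → q < P → ¬ (q : ℤ) ∣ 2 * N - c)
    (hn0 : 0 < n) (hc : c ≤ N) (hn : (n : ℤ) + 2 * (N - c) < P) :
    Int.gcd (c - n) (2 * N - n) = 1 := by
  by_contra hg
  obtain ⟨q, hq, hqd⟩ := Nat.exists_prime_and_dvd hg
  have h1 : (q : ℤ) ∣ c - n := (Int.natCast_dvd_natCast.mpr hqd).trans (Int.gcd_dvd_left _ _)
  have h2 : (q : ℤ) ∣ 2 * N - n := (Int.natCast_dvd_natCast.mpr hqd).trans (Int.gcd_dvd_right _ _)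
  have h3 : (q : ℤ) ∣ 2 * N - c := by
    have := dvd_sub h2 h1
    have e : (2 * (N : ℤ) - n) - (c - n) = 2 * N - c := by ring
    rwa [e] at this
  have h4 : (q : ℤ) ∣ n + 2 * (N - c) := by
    have := dvd_sub h3 h1
    have e : (2 * (N : ℤ) - c) - (c - n) = n + 2 * (N - c) := by ring
    rwa [e] at this
  have h5 : (q : ℤ) ≤ n + 2 * (N - c) := Int.le_of_dvd (by omega) h4
  exact h q hq (by omega) h3

/-- a run without nontrivial gcd -/
lemma Walk.phase {N : ℕ} {a : ℕ → ℤ} (hw : Walk N a) {c : ℤ} (hc : c ≤ N) {T T' P1 P2 : ℕ}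
    (hT : 1 ≤ T) (hst : a T = c - T - 1)
    (h1 : ∀ q : ℕ, q.Prime → q < P1 → ¬ (q : ℤ) ∣ c)
    (h2 : ∀ q : ℕ, q.Prime → q < P2 → ¬ (q : ℤ) ∣ 2 * N - c)
    (hP1 : T' < P1) (hP2 : (T' : ℤ) + 2 * (N - c) < P2) :
    ∀ n, T ≤ n → n ≤ T' → a n = c - n - 1 := by
  intro n hn
  induction n, hn using Nat.le_induction with
  | base => intro _; exact hst
  | succ n hn ih =>
    intro hle
    have h3 := ih (by omega)
    have h4 := hw.step (n + 1) (by omega)
    rw [Nat.add_sub_cancel, h3] at h4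
    have e : c - (n : ℤ) - 1 = c - ((n + 1 : ℕ) : ℤ) := by push_cast; ring
    have hg : Int.gcd (c - ((n + 1 : ℕ) : ℤ)) (V N (n + 1)) = 1 := by
      rcases Nat.mod_two_eq_zero_or_one (n + 1) with h5 | h5
      · rw [V_even N h5]
        exact gcd_even h1 (by omega) (by omega)
      · rw [V_odd N h5]
        refine gcd_odd h2 (by omega) hc ?_
        have : ((n + 1 : ℕ) : ℤ) ≤ T' := by exact_mod_cast hle
        linarith
    rw [h4, e, hg]
    push_cast
    ring

/-- a jump by a prime at an odd time -/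
lemma Walk.jump {N : ℕ} {a : ℕ → ℤ} (hw : Walk N a) {c : ℤ} {T p : ℕ}
    (hT : 1 ≤ T) (hst : a T = c - T - 1) (hodd : (T + 1) % 2 = 1)
    (hp : ((T + 1 : ℕ) : ℤ) + 2 * (N - c) = p) (hd : (p : ℤ) ∣ 2 * N - c) :
    Int.gcd (a T) (V N (T + 1)) = p ∧ a (T + 1) = (c - (p - 1)) - ((T + 1 : ℕ) : ℤ) - 1 := by
  have hg : Int.gcd (a T) (V N (T + 1)) = p := by
    rw [V_odd N hodd, hst]
    have hpz : (0 : ℤ) ≤ (p : ℤ) := by positivity
    apply Nat.dvd_antisymm
    · have h1 : (Int.gcd (c - T - 1) (2 * N - ((T + 1 : ℕ) : ℤ)) : ℤ) ∣ c - T - 1 :=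
        Int.gcd_dvd_left _ _
      have h2 : (Int.gcd (c - T - 1) (2 * N - ((T + 1 : ℕ) : ℤ)) : ℤ) ∣
          2 * N - ((T + 1 : ℕ) : ℤ) := Int.gcd_dvd_right _ _
      have h3 := dvd_sub (dvd_sub h2 h1) h1
      have e : (2 * (N : ℤ) - ((T + 1 : ℕ) : ℤ)) - (c - T - 1) - (c - T - 1) = p := by
        rw [← hp]; push_cast; ring
      rw [e] at h3
      exact_mod_cast h3
    · apply Int.natCast_dvd_natCast.mp
      apply Int.dvd_coe_gcd
      · have e : c - T - 1 = (2 * N - c) - p := by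
          rw [← hp]; push_cast; ring
        rw [e]
        exact dvd_sub hd dvd_rfl
      · have e : 2 * (N : ℤ) - ((T + 1 : ℕ) : ℤ) = (2 * N - c) + ((2 * N - c) - p) := by
          rw [← hp]; push_cast; ring
        rw [e]
        exact dvd_add hd (dvd_sub hd dvd_rfl)
  refine ⟨hg, ?_⟩
  have h4 := hw.step (T + 1) (by omega)
  rw [Nat.add_sub_cancel, hg, hst] at h4
  rw [h4]
  push_cast
  ring

/-- the hypotheses on a chain of primes -/
structure Chain (x p : ℕ → ℕ) (i j n : ℕ) : Prop where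
  lt : i < j
  prime : ∀ m, i ≤ m → m < j → (p m).Prime
  odd : ∀ m, i ≤ m → m < j → p m % 2 = 1
  succ : ∀ m, i ≤ m → m < j → x (m + 1) + 1 = x m + p m
  grow : ∀ m, i ≤ m → m < j → 3 * x m + 2 < p m
  hit : ∀ m, i ≤ m → m < j → p m ∣ n + x j + x m
  free1 : ∀ m, i ≤ m → m < j → ∀ q : ℕ, q.Prime → q < p m → ¬ q ∣ n + x j + x m
  free2 : ∀ m, i ≤ m → m < j → ∀ q : ℕ, q.Prime → q < p m →
    ¬ (q : ℤ) ∣ (n : ℤ) + 2 * x i + x j - x m
  pr1 : (n + 2 * x i).Prime
  pr2 : (n + 2 * x j).Prime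
  big : x j + 2 < n

namespace Chain

variable {x p : ℕ → ℕ} {i j n : ℕ}

lemma mono (h : Chain x p i j n) : ∀ m, i ≤ m → m ≤ j → x i ≤ x m := by
  intro m hm
  induction m, hm using Nat.le_induction with
  | base => intro _; exact le_rfl
  | succ m hm ih =>
    intro hmj
    have h1 := ih (by omega)
    have h2 := h.succ m hm (by omega)
    have h3 := h.grow m hm (by omega)
    omega

lemma mono' (h : Chain x p i j n) : ∀ m, i ≤ m → m ≤ j → ∀ l, m ≤ l → l ≤ j → x m ≤ x l := by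
  intro m hm hmj l hl
  induction l, hl using Nat.le_induction with
  | base => intro _; exact le_rfl
  | succ l hl ih =>
    intro hlj
    have h1 := ih (by omega)
    have h2 := h.succ l (by omega) (by omega)
    have h3 := h.grow l (by omega) (by omega)
    omega

/-- the state of the walk after the jumps by `p_i, ..., p_{m-1}` -/
lemma inv (h : Chain x p i j n) {a : ℕ → ℤ} (hw : Walk (n + x i + x j) a) :
    ∀ m, i ≤ m → m ≤ j → ∃ T : ℕ, 1 ≤ T ∧ T ≤ x m + 1 ∧
      a T = ((n : ℤ) + 2 * x i + x j - x m) - T - 1 ∧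
      (∀ l, 1 ≤ l → l ≤ T → ((n : ℤ) + 2 * x i + x j - x m) - l - 1 ≤ a l) ∧
      ∃ A : Finset ℕ, A ⊆ Finset.Icc 2 T ∧ A.card = m - i ∧
        ∀ l ∈ A, Int.gcd (a (l - 1)) (V (n + x i + x j) l) ≠ 1 := by
  intro m hm
  induction m, hm using Nat.le_induction with
  | base =>
    intro _
    refine ⟨1, le_rfl, by omega, ?_, ?_, ∅, by simp, by simp, by simp⟩
    · rw [hw.start]; push_cast; ring
    · intro l hl1 hl2
      have : l = 1 := by omega
      subst this
      rw [hw.start]; push_cast; linarith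
  | succ m hm ih =>
    intro hmj
    have hmj' : m < j := by omega
    obtain ⟨T, hT1, hT2, hst, hlow, A, hA1, hA2, hA3⟩ := ih (by omega)
    clear ih
    set N := n + x i + x j with hN
    set c : ℤ := (n : ℤ) + 2 * x i + x j - x m with hc
    have hNc : (N : ℤ) - c = x m - x i := by rw [hN, hc]; push_cast; ring
    have hxm : x i ≤ x m := h.mono m hm (by omega)
    have hcN : c ≤ N := by
      have : (x i : ℤ) ≤ x m := by exact_mod_cast hxm
      linarith
    have h2Nc : 2 * (N : ℤ) - c = ((n + x j + x m : ℕ) : ℤ) := by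
      rw [hN, hc]; push_cast; ring
    have hgrow := h.grow m hm hmj'
    have hpm := h.prime m hm hmj'
    have hodd := h.odd m hm hmj'
    have hsucc := h.succ m hm hmj'
    -- the time of the jump
    obtain ⟨t, ht⟩ : ∃ t : ℕ, t + 2 * (x m - x i) = p m := ⟨p m - 2 * (x m - x i), by omega⟩
    have htT : T + 1 ≤ t := by omega
    have hrun := hw.phase (c := c) hcN (T := T) (T' := t - 1) (P1 := p m) (P2 := p m) hT1 hst
      (h.free2 m hm hmj') (by
        intro q hq hqp hqd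
        rw [h2Nc] at hqd
        exact h.free1 m hm hmj' q hq hqp (Int.natCast_dvd_natCast.mp hqd))
      (by omega) (by rw [hNc]; omega)
    have hstt := hrun (t - 1) (by omega) le_rfl
    obtain ⟨hg, hnew⟩ := hw.jump (c := c) (T := t - 1) (p := p m) (by omega) hstt (by omega)
      (by rw [hNc]; omega)
      (by rw [h2Nc]; exact Int.natCast_dvd_natCast.mpr (h.hit m hm hmj'))
    have e1 : t - 1 + 1 = t := by omega
    rw [e1] at hg hnew
    have hcc : c - ((p m : ℤ) - 1) = (n : ℤ) + 2 * x i + x j - x (m + 1) := by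
      have : ((x (m + 1) : ℕ) : ℤ) + 1 = x m + p m := by exact_mod_cast hsucc
      rw [hc]; linarith
    rw [hcc] at hnew
    have hle : (n : ℤ) + 2 * x i + x j - x (m + 1) ≤ c := by
      rw [← hcc]
      have : (1 : ℤ) ≤ p m := by exact_mod_cast hpm.one_lt.le
      linarith
    refine ⟨t, by omega, by omega, hnew, ?_, insert t A, ?_, ?_, ?_⟩
    · intro l hl1 hl2
      rcases Nat.lt_or_ge l t with hlt | hlt
      · rcases Nat.lt_or_ge l T with h5 | h5
        · have := hlow l hl1 h5.le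
          linarith
        · rw [hrun l h5 (by omega)]
          linarith
      · have : l = t := by omega
        subst this
        rw [hnew]
    · intro l hl
      rw [Finset.mem_insert] at hl
      rcases hl with rfl | hl
      · rw [Finset.mem_Icc]; omega
      · have := Finset.mem_Icc.mp (hA1 hl)
        rw [Finset.mem_Icc]; omega
    · rw [Finset.card_insert_of_notMem, hA2]
      · omega
      · intro hmem
        have := Finset.mem_Icc.mp (hA1 hmem)
        omega
    · intro l hl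
      rw [Finset.mem_insert] at hl
      rcases hl with rfl | hl
      · rw [hg]
        exact hpm.one_lt.ne'
      · exact hA3 l hl

/-- the end of the walk -/
theorem finish (h : Chain x p i j n) {a : ℕ → ℤ} (hw : Walk (n + x i + x j) a) :
    ∃ g : ℕ, g + 1 = n + 2 * x i ∧ IsLeast {l : ℕ | 2 ≤ l ∧ a l = 0} g ∧
      j - i ≤ ((Finset.Icc 2 g).filter
        (fun l => Int.gcd (a (l - 1)) (V (n + x i + x j) l) ≠ 1)).card := by
  obtain ⟨T, hT1, hT2, hst, hlow, A, hA1, hA2, hA3⟩ := h.inv hw j h.lt.le le_rfl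
  have hbig := h.big
  set N := n + x i + x j with hN
  set c : ℤ := (n : ℤ) + 2 * x i + x j - x j with hc
  have hc' : c = ((n + 2 * x i : ℕ) : ℤ) := by rw [hc]; push_cast; ring
  have hxj : x i ≤ x j := h.mono j h.lt.le le_rfl
  have hxjz : (x i : ℤ) ≤ x j := by exact_mod_cast hxj
  have hNc : (N : ℤ) - c = x j - x i := by rw [hN, hc]; push_cast; ring
  have hcN : c ≤ N := by linarith
  have h2Nc : 2 * (N : ℤ) - c = ((n + 2 * x j : ℕ) : ℤ) := by
    rw [hN, hc]; push_cast; ring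
  have hfree : ∀ (P : ℕ), P.Prime → ∀ q : ℕ, q.Prime → q < P → ¬ q ∣ P := by
    intro P hP q hq hqP hd
    rcases (Nat.dvd_prime hP).mp hd with h1 | h1
    · exact hq.one_lt.ne' h1
    · omega
  have hrun := hw.phase (c := c) hcN (T := T) (T' := n + 2 * x i - 1) (P1 := n + 2 * x i)
    (P2 := n + 2 * x j) hT1 hst
    (by
      intro q hq hqp hqd
      rw [hc'] at hqd
      exact hfree _ h.pr1 q hq hqp (Int.natCast_dvd_natCast.mp hqd))
    (by
      intro q hq hqp hqd
      rw [h2Nc] at hqd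
      exact hfree _ h.pr2 q hq hqp (Int.natCast_dvd_natCast.mp hqd))
    (by omega) (by rw [hNc]; omega)
  refine ⟨n + 2 * x i - 1, by omega, ⟨⟨by omega, ?_⟩, ?_⟩, ?_⟩
  · rw [hrun _ (by omega) le_rfl, hc']
    omega
  · rintro l ⟨hl1, hl2⟩
    by_contra hcon
    push Not at hcon
    have h3 : c - l - 1 ≤ a l := by
      rcases Nat.lt_or_ge l T with h5 | h5
      · exact hlow l (by omega) h5.le
      · rw [hrun l h5 (by omega)]
    rw [hl2, hc'] at h3
    omega
  · rw [← hA2]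
    apply Finset.card_le_card
    intro l hl
    rw [Finset.mem_filter]
    refine ⟨?_, hA3 l hl⟩
    have := Finset.mem_Icc.mp (hA1 hl)
    rw [Finset.mem_Icc]
    omega

end Chain

end Pool.Agent.Y884.GR
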