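import Mathlib
import Pool.Agent.H361R2.Bridge
import Pool.Agent.Y884.GR.MTall
import Pool.Agent.Y884.GR.Walk
import Pool.Agent.Y884.GR.Seq

/-! The family of composite `N` with many nontrivial gcds. -/

set_option autoImplicit false

namespace Pool.Agent.Y884.GR

open Finset

/-- what we want for `N` -/
def Good (r C N : ℕ) : Prop :=
  ∀ a : ℕ → ℤ, a 1 = (N : ℤ) - 2 →
    (∀ n : ℕ, 2 ≤ n → a n = a (n - 1) -
      ((Int.gcd (a (n - 1)) ((N : ℤ) - (-1 : ℤ) ^ n * ((N : ℤ) - (n : ℤ))) : ℕ) : ℤ)) →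
    ∃ g : ℕ, IsLeast {n : ℕ | 2 ≤ n ∧ a n = 0} g ∧ Nat.Prime (g + 1) ∧
      Nat.Prime (2 * N - g - 1) ∧ g + 1 < N ∧ N ≤ g + C ∧
      r ≤ ((Finset.Icc 2 g).filter (fun n => Int.gcd (a (n - 1))
        ((N : ℤ) - (-1 : ℤ) ^ n * ((N : ℤ) - (n : ℤ))) ≠ 1)).card

theorem Chain.good {x p : ℕ → ℕ} {i j n : ℕ} (h : Chain x p i j n) {r C : ℕ} (hr : r ≤ j - i)
    (hC : x j + 1 ≤ C + x i) : Good r C (n + x i + x j) := by
  intro a ha1 ha2
  have hw : Walk (n + x i + x j) a := ⟨ha1, ha2⟩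
  obtain ⟨g, hg1, hg2, hg3⟩ := h.finish hw
  have h1 := h.succ i le_rfl h.lt
  have h2 := h.grow i le_rfl h.lt
  have h3 := h.mono' (i + 1) (by omega) h.lt j h.lt le_rfl
  refine ⟨g, hg2, ?_, ?_, ?_, ?_, ?_⟩
  · rw [hg1]; exact h.pr1
  · have e : 2 * (n + x i + x j) - g - 1 = n + 2 * x j := by omega
    rw [e]; exact h.pr2
  · omega
  · omega
  · exact hr.trans hg3

/-- the setup of a prime window -/
structure Setup (B k : ℕ) (x p : ℕ → ℕ) (N0 : ℕ) (ρ : ℕ → ℤ) : Prop where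
  sq : Sq B x p
  B2 : 2 ≤ B
  res1 : ∀ q : ℕ, q.Prime → ∀ l, l < k → q = p l → (q : ℤ) ∣ ρ q + x l + x (l + 1)
  res2 : ∀ q : ℕ, q.Prime → ∀ i m j, i ≤ m → m ≤ j → j < k → (q < p m ∨ m = j) →
        ¬ (q : ℤ) ∣ ρ q + 2 * x i + x j - x m
  crt : ∀ q : ℕ, q.Prime → q ≤ p k → (q : ℤ) ∣ (N0 : ℤ) - ρ q

namespace Setup

variable {B k N0 : ℕ} {x p : ℕ → ℕ} {ρ : ℕ → ℤ}

lemma crt' (h : Setup B k x p N0 ρ) (ν : ℕ) {q : ℕ} (hq : q.Prime) (hqk : q ≤ p k) :
    (q : ℤ) ∣ (((p k).factorial * ν + (N0 + (p k).factorial) : ℕ) : ℤ) - ρ q := by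
  have h1 : (q : ℤ) ∣ ((p k).factorial : ℤ) :=
    Int.natCast_dvd_natCast.mpr ((hq.dvd_factorial).mpr hqk)
  have h2 := h.crt q hq hqk
  have e : (((p k).factorial * ν + (N0 + (p k).factorial) : ℕ) : ℤ) - ρ q =
      ((p k).factorial : ℤ) * (ν + 1) + (N0 - ρ q) := by push_cast; ring
  rw [e]
  exact dvd_add (h1.mul_right _) h2

lemma ple (h : Setup B k x p N0 ρ) {m : ℕ} (hm : m ≤ k) : p m ≤ p k := by
  rcases hm.lt_or_eq with h1 | h1
  · exact (h.sq.lt _ _ h1).le
  · rw [h1]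

theorem chain (h : Setup B k x p N0 ρ) (ν i j : ℕ) (hij : i < j) (hjk : j < k)
    (h1 : ((p k).factorial * ν + (N0 + (p k).factorial) + 2 * x i).Prime)
    (h2 : ((p k).factorial * ν + (N0 + (p k).factorial) + 2 * x j).Prime) :
    Chain x p i j ((p k).factorial * ν + (N0 + (p k).factorial)) := by
  set n := (p k).factorial * ν + (N0 + (p k).factorial) with hn
  refine ⟨hij, fun m _ _ => h.sq.prime m, ?_, fun m _ _ => h.sq.succ m, fun m _ _ => h.sq.grow m,
    ?_, ?_, ?_, h1, h2, ?_⟩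
  · intro m _ _
    rcases (h.sq.prime m).eq_two_or_odd with h3 | h3
    · have := h.sq.big m
      have := h.B2
      omega
    · exact h3
  · intro m him hmj
    have hp := h.sq.prime m
    have h3 := h.res1 (p m) hp m (by omega) rfl
    have h4 := h.crt' ν hp (h.ple (by omega))
    rw [← hn] at h4
    have h5 := h.sq.dvd_sub (show m + 1 ≤ j from hmj)
    have h6 := dvd_add (dvd_add h3 h4) h5
    have e : (ρ (p m) + x m + x (m + 1)) + ((n : ℤ) - ρ (p m)) + ((x j : ℤ) - x (m + 1)) =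
      ((n + x j + x m : ℕ) : ℤ) := by push_cast; ring
    rw [e] at h6
    exact Int.natCast_dvd_natCast.mp h6
  · intro m him hmj q hq hqm hd
    have h3 := h.res2 q hq m m j le_rfl hmj.le hjk (Or.inl hqm)
    have h4 := h.crt' ν hq (hqm.le.trans (h.ple (by omega)))
    rw [← hn] at h4
    apply h3
    have h5 : (q : ℤ) ∣ ((n + x j + x m : ℕ) : ℤ) := Int.natCast_dvd_natCast.mpr hd
    have h6 := dvd_sub h5 h4
    have e : ((n + x j + x m : ℕ) : ℤ) - ((n : ℤ) - ρ q) = ρ q + 2 * x m + x j - x m := by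
      push_cast; ring
    rwa [e] at h6
  · intro m him hmj q hq hqm hd
    have h3 := h.res2 q hq i m j him hmj.le hjk (Or.inl hqm)
    have h4 := h.crt' ν hq (hqm.le.trans (h.ple (by omega)))
    rw [← hn] at h4
    apply h3
    have h6 := dvd_sub hd h4
    have e : (n : ℤ) + 2 * x i + x j - x m - ((n : ℤ) - ρ q) = ρ q + 2 * x i + x j - x m := by
      ring
    rwa [e] at h6
  · have h3 := h.sq.mono hjk.le
    have h4 := h.sq.grow k
    have h5 := Nat.self_le_factorial (p k)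
    omega

theorem adm (h : Setup B k x p N0 ρ) (hkB : k < B) (q : ℕ) (hq : q.Prime) :
    ∃ n : ℕ, ¬ q ∣ n ∧ ∀ i : Fin k,
      ¬ q ∣ (p k).factorial * n + ((N0 + (p k).factorial) + 2 * x i) := by
  rcases Nat.lt_or_ge (p k) q with hqk | hqk
  · have hnW : ¬ (q : ℤ) ∣ ((p k).factorial : ℤ) := by
      intro hd
      have := (hq.dvd_factorial).mp (Int.natCast_dvd_natCast.mp hd)
      omega
    have hbig := h.sq.big k
    have hq1 : (1 : ℤ) < q := by exact_mod_cast hq.one_lt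
    obtain ⟨n, hn⟩ := Pool.Agent.H361R2.exists_avoid' (m := k + 1) hq (by omega)
        (Fin.cons 1 (fun _ => ((p k).factorial : ℤ)))
        (Fin.cons 0 (fun i : Fin k => (((N0 + (p k).factorial) + 2 * x i : ℕ) : ℤ))) (by
          intro i
          refine Fin.cases ?_ (fun i => ?_) i
          · simp only [Fin.cons_zero]
            rintro ⟨h1, _⟩
            have := Int.le_of_dvd one_pos h1
            omega
          · simp only [Fin.cons_succ]
            rintro ⟨h1, _⟩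
            exact hnW h1)
    refine ⟨n, ?_, ?_⟩
    · intro hd
      have := hn 0
      simp only [Fin.cons_zero, one_mul, add_zero] at this
      exact this (Int.natCast_dvd_natCast.2 hd)
    · intro i hd
      have := hn i.succ
      simp only [Fin.cons_succ] at this
      exact this (by exact_mod_cast hd)
  · refine ⟨1, fun hd => hq.one_lt.ne' (Nat.dvd_one.1 hd), ?_⟩
    intro i hd
    have h3 := h.res2 q hq i i i le_rfl le_rfl i.2 (Or.inr rfl)
    have h4 := h.crt' 1 hq hqk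
    apply h3
    have h5 : (q : ℤ) ∣ (((p k).factorial * 1 + ((N0 + (p k).factorial) + 2 * x i) : ℕ) : ℤ) :=
      Int.natCast_dvd_natCast.mpr hd
    have h6 := dvd_sub h5 h4
    have e : (((p k).factorial * 1 + ((N0 + (p k).factorial) + 2 * x i) : ℕ) : ℤ) -
      ((((p k).factorial * 1 + (N0 + (p k).factorial) : ℕ) : ℤ) - ρ q) =
        ρ q + 2 * x i + x i - x i := by push_cast; ring
    rwa [e] at h6

/-- a cluster of primes gives many good composite `N` -/
theorem window (h : Setup B k x p N0 ρ) (r m ν : ℕ)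
    (hS : m + r + 1 ≤ ((univ : Finset (Fin k)).filter (fun i : Fin k =>
      ((p k).factorial * ν + ((N0 + (p k).factorial) + 2 * x i)).Prime)).card) :
    ∃ A : Finset ℕ, m ≤ A.card ∧ ∀ N ∈ A,
      (p k).factorial * ν + (N0 + (p k).factorial) ≤ N ∧
      N ≤ (p k).factorial * ν + (N0 + (p k).factorial) + (2 * x k + 2) ∧
      ¬ N.Prime ∧ Odd N ∧ Good r (2 * x k + 2) N := by
  classical
  set n := (p k).factorial * ν + (N0 + (p k).factorial) with hn
  set S := (univ : Finset (Fin k)).filter (fun i : Fin k =>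
      ((p k).factorial * ν + ((N0 + (p k).factorial) + 2 * x i)).Prime) with hSd
  have hSp : ∀ i ∈ S, (n + 2 * x i).Prime := by
    intro i hi
    have := (mem_filter.mp hi).2
    rwa [← add_assoc] at this
  have hne : S.Nonempty := by
    rw [← card_pos]; omega
  set i0 := S.min' hne with hi0
  have hi0S : i0 ∈ S := S.min'_mem hne
  set S' := S.filter (fun j : Fin k => (i0 : ℕ) + r < j) with hS'
  have hcard : m ≤ S'.card := by
    have h1 : (S.filter (fun j : Fin k => ¬ ((i0 : ℕ) + r < j))).card ≤ r + 1 := by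
      have h2 : (S.filter (fun j : Fin k => ¬ ((i0 : ℕ) + r < j))).card ≤
          (Finset.Icc (i0 : ℕ) (i0 + r)).card := by
        apply card_le_card_of_injOn (fun j : Fin k => (j : ℕ))
        · intro j hj
          have hj' := mem_filter.mp (mem_coe.mp hj)
          have h3 : i0 ≤ j := S.min'_le j hj'.1
          have h4 : (i0 : ℕ) ≤ j := h3
          simp only [coe_Icc, Set.mem_Icc]
          omega
        · intro a _ b _ hab
          exact Fin.ext hab
      rw [Nat.card_Icc] at h2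
      omega
    have h2 := card_filter_add_card_filter_not (s := S) (fun j : Fin k => (i0 : ℕ) + r < j)
    rw [← hS'] at h2
    omega
  refine ⟨S'.image (fun j : Fin k => n + x i0 + x j), ?_, ?_⟩
  · rw [card_image_of_injOn]
    · exact hcard
    · intro a _ b _ hab
      have h1 : x a = x b := by
        have : n + x i0 + x a = n + x i0 + x b := hab
        omega
      exact Fin.ext (h.sq.inj h1)
  · intro N hN
    obtain ⟨j, hj, rfl⟩ := mem_image.mp hN
    obtain ⟨hjS, hj2⟩ := mem_filter.mp hj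
    have hij : (i0 : ℕ) < j := by omega
    have hch := h.chain ν i0 j hij j.2 (hSp i0 hi0S) (hSp j hjS)
    rw [← hn] at hch
    have hxi := h.sq.mono i0.2.le
    have hxj := h.sq.mono j.2.le
    have hbig := hch.big
    have hhit := hch.hit i0 le_rfl hij
    have hpi := h.sq.prime i0
    have hplt : p i0 ≤ x (i0 + 1) + 1 := by
      have := h.sq.succ i0
      omega
    have hxx := h.sq.mono (show (i0 : ℕ) + 1 ≤ j from hij)
    have hodd : Odd (n + x i0 + x j) := by
      have h0 : ∀ l, 2 ∣ x l := by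
        intro l
        have : (2 : ℕ) ∣ B.factorial := (Nat.prime_two.dvd_factorial).mpr h.B2
        exact Int.natCast_dvd_natCast.mp (by exact_mod_cast h.sq.dvdB this l)
      have h1 := hpi.odd_of_ne_two (by have := h.sq.big i0; have := h.B2; omega)
      have h2 : ¬ 2 ∣ n + x j + x i0 := by
        refine hch.free1 i0 le_rfl hij 2 Nat.prime_two ?_
        have := h.sq.big i0; have := h.B2; omega
      rw [Nat.odd_iff]
      omega
    refine ⟨by omega, by omega, ?_, hodd, hch.good (by omega) (by omega)⟩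
    intro hpr
    have hd : p i0 ∣ n + x i0 + x j := by
      have e : n + x i0 + x j = n + x j + x i0 := by ring
      rw [e]; exact hhit
    rcases (Nat.dvd_prime hpr).mp hd with h1 | h1
    · exact hpi.one_lt.ne' h1
    · omega

end Setup

theorem exists_setup (k : ℕ) : ∃ (x p : ℕ → ℕ) (N0 : ℕ) (ρ : ℕ → ℤ),
    Setup (k ^ 3 + k + 2) k x p N0 ρ := by
  classical
  obtain ⟨x, p, hS⟩ := exists_sq (k ^ 3 + k + 2)
  have hex : ∀ q : ℕ, ∃ ρ : ℤ, q.Prime → ((∀ l, l < k → q = p l → (q : ℤ) ∣ ρ + x l + x (l + 1)) ∧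
      ∀ i m j, i ≤ m → m ≤ j → j < k → (q < p m ∨ m = j) →
        ¬ (q : ℤ) ∣ ρ + 2 * x i + x j - x m) := by
    intro q
    by_cases hq : q.Prime
    · obtain ⟨ρ, h1, h2⟩ := hS.residue k (by omega) hq
      exact ⟨ρ, fun _ => ⟨h1, h2⟩⟩
    · exact ⟨0, fun h => absurd h hq⟩
  choose ρ hρ using hex
  set T : Finset ℕ := (range (p k + 1)).filter Nat.Prime with hT
  have hpair : Set.Pairwise (T : Set ℕ) (Function.onFun Nat.Coprime (fun p : ℕ => p)) := by
    intro p hp q hq hpq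
    have hp' : p.Prime := (mem_filter.1 hp).2
    have hq' : q.Prime := (mem_filter.1 hq).2
    exact (Nat.coprime_primes hp' hq').2 hpq
  obtain ⟨N0, hN0⟩ := Nat.chineseRemainderOfFinset (fun q : ℕ => ((ρ q) % q).toNat)
    (fun p : ℕ => p) T (fun p hp => (mem_filter.1 hp).2.ne_zero) hpair
  refine ⟨x, p, N0, ρ, hS, by omega, fun q hq => (hρ q hq).1, fun q hq => (hρ q hq).2, ?_⟩
  intro q hq hqk
  have hqT : q ∈ T := mem_filter.2 ⟨mem_range.2 (by omega), hq⟩
  have h1 := hN0 q hqT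
  have h2 : (q : ℤ) ∣ (((ρ q) % q).toNat : ℤ) - (N0 : ℤ) := Nat.modEq_iff_dvd.1 h1
  rw [Int.toNat_of_nonneg (Int.emod_nonneg _ (by exact_mod_cast hq.ne_zero))] at h2
  have h3 : (q : ℤ) ∣ (ρ q) - (ρ q) % q := Int.dvd_self_sub_emod
  have h4 := dvd_add h2 h3
  have e : (ρ q % (q : ℤ) - (N0 : ℤ)) + (ρ q - ρ q % q) = -((N0 : ℤ) - ρ q) := by ring
  rw [e] at h4
  exact dvd_neg.mp h4

open Classical in
theorem family (r m : ℕ) : ∃ C : ℕ, ∀ ε : ℝ, 0 < ε → ∃ X₀ : ℝ, ∀ X : ℝ, X₀ ≤ X →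
    X ^ (1 - ε) ≤ (((Finset.Icc 1 ⌊X⌋₊).filter (fun M : ℕ => ∃ A : Finset ℕ, m ≤ A.card ∧
      ∀ N ∈ A, M ≤ N ∧ N ≤ M + C ∧ ¬ N.Prime ∧ Odd N ∧ Good r C N)).card : ℝ) := by
  obtain ⟨k, hk2, hMT⟩ := maynardTaoAll (m + r + 1) (by omega)
  obtain ⟨x, p, N0, ρ, h⟩ := exists_setup k
  refine ⟨2 * x k + 2, fun ε hε => ?_⟩
  have hW0 : 0 < (p k).factorial := Nat.factorial_pos _
  obtain ⟨δ₀, hδ₀, hMT⟩ := hMT (fun _ => (p k).factorial)
    (fun i => (N0 + (p k).factorial) + 2 * x i) (fun _ => hW0) (fun i => by omega)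
    (by
      intro i j hij heq
      have h1 := Nat.eq_of_mul_eq_mul_left hW0 heq
      have h2 : x j = x i := by omega
      exact hij (Fin.ext (h.sq.inj h2.symm)))
    (fun q hq => h.adm (by omega) q hq)
  obtain ⟨x₀, hx₀⟩ := hMT (min δ₀ ε) (lt_min hδ₀ hε) (min_le_left _ _)
  set δ := min δ₀ ε with hδ
  have hδ0 : 0 < δ := lt_min hδ₀ hε
  have hδε : δ ≤ ε := min_le_right _ _
  set W : ℕ := (p k).factorial with hW
  have hWr : (0 : ℝ) < W := by exact_mod_cast hW0
  have htend : Filter.Tendsto (fun X : ℝ => X ^ (ε / 2)) Filter.atTop Filter.atTop :=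
    tendsto_rpow_atTop (by linarith)
  obtain ⟨X₁, hX₁⟩ := Filter.eventually_atTop.mp (htend.eventually_ge_atTop (2 * (W : ℝ)))
  refine ⟨max (max X₁ 1) (max (2 * W * x₀) (2 * (N0 + W))), fun X hX => ?_⟩
  have hXX₁ : X₁ ≤ X := ((le_max_left _ _).trans (le_max_left _ _)).trans hX
  have hX1 : 1 ≤ X := ((le_max_right _ _).trans (le_max_left _ _)).trans hX
  have hXx₀ : 2 * W * x₀ ≤ X := ((le_max_left _ _).trans (le_max_right _ _)).trans hX
  have hXN : 2 * ((N0 : ℝ) + W) ≤ X := ((le_max_right _ _).trans (le_max_right _ _)).trans hX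
  have hX0 : 0 < X := by linarith
  have h2W : (1 : ℝ) ≤ 2 * W := by
    have : (1 : ℝ) ≤ W := by exact_mod_cast hW0
    linarith
  have hy : x₀ ≤ X / (2 * W) := by
    rw [le_div_iff₀ (by linarith)]; linarith
  have hcount := hx₀ (X / (2 * W)) hy
  have hpow : X ^ (1 - ε) ≤ (X / (2 * W)) ^ (1 - δ / 2) := by
    rw [Real.div_rpow hX0.le (by linarith), le_div_iff₀ (by positivity)]
    have h1 : (2 * (W : ℝ)) ^ (1 - δ / 2) ≤ 2 * W := by
      calc (2 * (W : ℝ)) ^ (1 - δ / 2) ≤ (2 * (W : ℝ)) ^ (1 : ℝ) :=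
            Real.rpow_le_rpow_of_exponent_le h2W (by linarith)
        _ = 2 * W := Real.rpow_one _
    have h2 := hX₁ X hXX₁
    calc X ^ (1 - ε) * (2 * (W : ℝ)) ^ (1 - δ / 2) ≤ X ^ (1 - ε) * X ^ (ε / 2) := by
          apply mul_le_mul_of_nonneg_left (h1.trans h2) (by positivity)
      _ = X ^ (1 - ε / 2) := by
          rw [← Real.rpow_add hX0]; congr 1; ring
      _ ≤ X ^ (1 - δ / 2) := Real.rpow_le_rpow_of_exponent_le hX1 (by linarith)
  refine hpow.trans (hcount.trans ?_)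
  rw [Nat.cast_le]
  apply card_le_card_of_injOn (fun ν => W * ν + (N0 + W))
  · intro ν hν
    have hν' := mem_filter.mp (mem_coe.mp hν)
    obtain ⟨hν1, -, hν2⟩ := hν'
    rw [mem_Icc] at hν1
    have hνx : (ν : ℝ) ≤ X / (2 * W) :=
      (Nat.cast_le.2 hν1.2).trans (Nat.floor_le (by positivity))
    rw [le_div_iff₀ (by linarith)] at hνx
    apply mem_coe.mpr
    rw [mem_filter, mem_Icc]
    have hW1 : 0 < W := hW0
    have hge : 1 ≤ W * ν + (N0 + W) := by omega
    refine ⟨⟨hge, ?_⟩, ?_⟩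
    · apply Nat.le_floor
      push_cast
      linarith
    · have h5 := le_trans (by omega : m + r + 1 ≤ m + r + 1 + 1) hν2
      obtain ⟨A, hA1, hA2⟩ := h.window r m ν h5
      exact ⟨A, hA1, hA2⟩
  · intro a _ b _ hab
    have h1 : W * a + (N0 + W) = W * b + (N0 + W) := hab
    have h2 : W * a = W * b := by omega
    exact Nat.eq_of_mul_eq_mul_left hW0 h2

end Pool.Agent.Y884.GR
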